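import Pool.Agent.helper71.DSW.SpecA

/-!
# Counting permutations without minors (row dsw:CNT)
-/

set_option autoImplicit false

namespace Pool.Agent.DSW

open Equiv Finset Function Pool.Agent.helper48.PP
open scoped ENNReal Classical

/-- the monotone functions -/
noncomputable def CNT_mono (N : ℕ) : Finset (Fin N → Fin N) :=
  Finset.univ.filter fun X => Monotone X

theorem CNT_mono_card (N : ℕ) : (CNT_mono N).card ≤ 4 ^ N := by
  have h1 : (Finset.range (2 * N)).powerset.card = 4 ^ N := by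
    rw [Finset.card_powerset, Finset.card_range, pow_mul]
    norm_num
  rw [← h1]
  refine Finset.card_le_card_of_injOn
    (fun X => Finset.univ.image fun r : Fin N => (X r : ℕ) + (r : ℕ)) ?_ ?_
  · intro X _
    rw [Finset.mem_coe, Finset.mem_powerset]
    intro x hx
    rw [Finset.mem_image] at hx
    obtain ⟨r, -, rfl⟩ := hx
    have h2 := (X r).2
    have h3 := r.2
    rw [Finset.mem_range]
    omega
  · intro X hX X' hX' h
    have hm : ∀ Z ∈ CNT_mono N, StrictMono fun r : Fin N => (Z r : ℕ) + (r : ℕ) := by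
      intro Z hZ r s hrs
      have h2 : Monotone Z := (Finset.mem_filter.1 hZ).2
      have h3 : (Z r : ℕ) ≤ (Z s : ℕ) := h2 hrs.le
      have h4 : (r : ℕ) < (s : ℕ) := hrs
      show (Z r : ℕ) + (r : ℕ) < (Z s : ℕ) + (s : ℕ)
      omega
    have h5 : Set.range (fun r : Fin N => (X r : ℕ) + (r : ℕ)) =
        Set.range (fun r : Fin N => (X' r : ℕ) + (r : ℕ)) := by
      have h6 := congrArg (fun s : Finset ℕ => (s : Set ℕ)) h
      simp only [Finset.coe_image, Finset.coe_univ, Set.image_univ] at h6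
      exact h6
    have h7 := ((hm X hX).range_inj (hm X' hX')).1 h5
    funext r
    have h8 : (X r : ℕ) + (r : ℕ) = (X' r : ℕ) + (r : ℕ) := congrFun h7 r
    exact Fin.ext (by omega)

theorem CNT_choose {N m : ℕ} (h : N ≤ m) : m ^ N ≤ N ^ N * m.choose N := by
  have h1 : m ^ N * N.factorial ≤ N ^ N * m.descFactorial N := by
    have e1 : N.factorial = ∏ i ∈ Finset.range N, (N - i) := by
      rw [← Nat.descFactorial_self, Nat.descFactorial_eq_prod_range]
    have e2 : ∀ a : ℕ, a ^ N = ∏ _i ∈ Finset.range N, a := fun a => by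
      rw [Finset.prod_const, Finset.card_range]
    rw [e1, Nat.descFactorial_eq_prod_range, e2 m, e2 N, ← Finset.prod_mul_distrib,
      ← Finset.prod_mul_distrib]
    refine Finset.prod_le_prod (fun i _ => Nat.zero_le _) fun i _ => ?_
    rw [Nat.mul_sub, Nat.mul_sub, mul_comm m N]
    exact Nat.sub_le_sub_left (Nat.mul_le_mul_right i h) _
  rw [Nat.descFactorial_eq_factorial_mul_choose] at h1
  have h2 : N.factorial * m ^ N ≤ N.factorial * (N ^ N * m.choose N) := by
    calc N.factorial * m ^ N = m ^ N * N.factorial := mul_comm _ _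
      _ ≤ N ^ N * (N.factorial * m.choose N) := h1
      _ = N.factorial * (N ^ N * m.choose N) := by ring
  exact Nat.le_of_mul_le_mul_left h2 (Nat.factorial_pos N)

theorem CNT_one (N l : ℕ) (hl : 1 ≤ l) : (1 : Perm (Fin N)) ∈ NM (3 * l) N := by
  unfold NM
  rw [Finset.mem_filter]
  refine ⟨Finset.mem_univ _, ?_⟩
  rintro ⟨a, b, c, d, hab, hba, hcd, hdc, hbox⟩
  have h01 : (⟨0, by omega⟩ : Fin (3 * l)) < ⟨1, by omega⟩ := by
    rw [Fin.lt_def]
    exact Nat.zero_lt_one
  obtain ⟨P, ⟨i, rfl⟩, h1, h2, h3, h4⟩ := hbox ⟨0, by omega⟩ ⟨1, by omega⟩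
  obtain ⟨P', ⟨i', rfl⟩, h1', h2', h3', h4'⟩ := hbox ⟨1, by omega⟩ ⟨0, by omega⟩
  have e1 := hba _ _ h01
  have e2 := hdc _ _ h01
  simp only [Perm.coe_one, id] at h1 h2 h3 h4 h1' h2' h3' h4'
  omega

theorem CNT_count (hSOR : SOR_stmt) (hPIM : PIM_stmt) (N l : ℕ) (A : Finset (ℕ × ℕ))
    (hA : A ⊆ Finset.range N ×ˢ Finset.range N) (hl : 1 ≤ l) (hM : ¬ Minor l (A : Set (ℕ × ℕ))) :
    A.card.choose N ≤ (NM (3 * l) N).card * 16 ^ N := by
  have h1 : A.powersetCard N ⊆ (NM (3 * l) N ×ˢ (CNT_mono N ×ˢ CNT_mono N)).image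
      (fun q : Perm (Fin N) × ((Fin N → Fin N) × (Fin N → Fin N)) =>
        Finset.univ.image fun r : Fin N => ((q.2.1 r : ℕ), (q.2.2 (q.1 r) : ℕ))) := by
    intro S hS
    rw [Finset.mem_powersetCard] at hS
    obtain ⟨w, X, Y, hX, hY, hSe, h2, h3⟩ := hSOR N S hS.2
    have h4 : ∀ r, (X r, Y (w r)) ∈ A := by
      intro r
      refine hS.1 ?_
      rw [hSe]
      exact Finset.mem_image_of_mem _ (Finset.mem_univ r)
    have h5 : ∀ r, X r < N ∧ Y (w r) < N := by
      intro r
      have := hA (h4 r)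
      rw [Finset.mem_product, Finset.mem_range, Finset.mem_range] at this
      exact this
    have h6 : ∀ v, Y v < N := by
      intro v
      have := (h5 (w.symm v)).2
      rwa [Equiv.apply_symm_apply] at this
    rw [Finset.mem_image]
    refine ⟨(w, (fun r => ⟨X r, (h5 r).1⟩), fun v => ⟨Y v, h6 v⟩), ?_, ?_⟩
    · rw [Finset.mem_product, Finset.mem_product]
      refine ⟨?_, ?_, ?_⟩
      · unfold NM
        rw [Finset.mem_filter]
        refine ⟨Finset.mem_univ _, fun hm => hM ?_⟩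
        exact hPIM N l (A : Set (ℕ × ℕ)) w X Y hl hX hY (fun r => Finset.mem_coe.2 (h4 r)) h2 h3 hm
      · refine Finset.mem_filter.2 ⟨Finset.mem_univ _, fun r s hrs => ?_⟩
        exact hX hrs
      · refine Finset.mem_filter.2 ⟨Finset.mem_univ _, fun r s hrs => ?_⟩
        exact hY hrs
    · exact hSe.symm
  have h2 := (Finset.card_le_card h1).trans Finset.card_image_le
  rw [Finset.card_powersetCard, Finset.card_product, Finset.card_product] at h2
  refine h2.trans (Nat.mul_le_mul_left _ ?_)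
  calc (CNT_mono N).card * (CNT_mono N).card ≤ 4 ^ N * 4 ^ N :=
        Nat.mul_le_mul (CNT_mono_card N) (CNT_mono_card N)
    _ = 16 ^ N := by rw [← mul_pow]; norm_num

/-- **CNT**: counting permutations without minors. -/
theorem CNT (hSOR : SOR_stmt) (hPIM : PIM_stmt) : CNT_stmt := by
  intro N l A hA hcard hl hM
  have hNM : 1 ≤ (NM (3 * l) N).card := Finset.card_pos.2 ⟨1, CNT_one N l hl⟩
  rcases Nat.lt_or_ge A.card N with h | h
  · have hN : N ≤ 128 := by nlinarith
    calc N ^ N ≤ 128 ^ N := Nat.pow_le_pow_left hN _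
      _ ≤ 128 ^ N * (NM (3 * l) N).card := Nat.le_mul_of_pos_right _ hNM
  · have h1 := CNT_choose h
    have h2 := CNT_count hSOR hPIM N l A hA hl hM
    have h3 : N ^ N * N ^ N ≤ N ^ N * (8 ^ N * A.card.choose N) := by
      calc N ^ N * N ^ N = (N * N) ^ N := by rw [mul_pow]
        _ ≤ (8 * A.card) ^ N := Nat.pow_le_pow_left hcard _
        _ = 8 ^ N * A.card ^ N := by rw [mul_pow]
        _ ≤ 8 ^ N * (N ^ N * A.card.choose N) := Nat.mul_le_mul_left _ h1
        _ = N ^ N * (8 ^ N * A.card.choose N) := by ring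
    have h4 : 0 < N ^ N := by
      rcases Nat.eq_zero_or_pos N with rfl | hN
      · simp
      · exact Nat.pow_pos hN
    have h5 := Nat.le_of_mul_le_mul_left h3 h4
    calc N ^ N ≤ 8 ^ N * A.card.choose N := h5
      _ ≤ 8 ^ N * ((NM (3 * l) N).card * 16 ^ N) := Nat.mul_le_mul_left _ h2
      _ = (8 * 16) ^ N * (NM (3 * l) N).card := by rw [mul_pow]; ring
      _ = 128 ^ N * (NM (3 * l) N).card := by norm_num

end Pool.Agent.DSW
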