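import Pool.Agent.helper71.DSW.SpecA

/-!
# Direct sums of permutations without minors (row dsw:DSU)
-/

set_option autoImplicit false

namespace Pool.Agent.DSW

open Equiv Finset Function Pool.Agent.helper48.PP
open scoped ENNReal Classical

/-- the direct sum of `T` permutations of length `N` -/
def DSU_w {N T : ℕ} (π : Fin T → Perm (Fin N)) : Perm (Fin (T * N)) :=
  (finProdFinEquiv.symm.trans (Equiv.prodShear (Equiv.refl _) π)).trans finProdFinEquiv

theorem DSU_w_apply {N T : ℕ} (π : Fin T → Perm (Fin N)) (t : Fin T) (j : Fin N) :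
    DSU_w π (finProdFinEquiv (t, j)) = finProdFinEquiv (t, π t j) := by
  simp [DSU_w, Equiv.prodShear]

theorem DSU_inj {N T : ℕ} : Injective (DSU_w : (Fin T → Perm (Fin N)) → Perm (Fin (T * N))) := by
  intro π π' h
  funext t
  refine Equiv.ext fun j => ?_
  have h1 := DSU_w_apply π t j
  have h2 := DSU_w_apply π' t j
  rw [h, h2] at h1
  have h3 := finProdFinEquiv.injective h1
  exact (congrArg Prod.snd h3).symm

theorem DSU_gra {N T : ℕ} (π : Fin T → Perm (Fin N)) {z : ℕ × ℕ} (h : z ∈ gra (DSU_w π)) :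
    ∃ (t : Fin T) (j : Fin N), z.1 = (j : ℕ) + N * (t : ℕ) ∧ z.2 = (π t j : ℕ) + N * (t : ℕ) := by
  obtain ⟨i, rfl⟩ := h
  obtain ⟨⟨t, j⟩, rfl⟩ := finProdFinEquiv.surjective i
  refine ⟨t, j, ?_, ?_⟩
  · rfl
  · rw [DSU_w_apply]
    rfl

theorem DSU_lt {N j j' t t' : ℕ} (hj : j < N) (h : t < t') : j + N * t < j' + N * t' := by
  have h1 : N * (t + 1) ≤ N * t' := Nat.mul_le_mul_left N h
  rw [mul_add, mul_one] at h1
  omega

theorem DSU_minor {N T l : ℕ} (π : Fin T → Perm (Fin N)) (h : Minor (l + 2) (gra (DSU_w π))) :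
    ∃ t, Minor l (gra (π t)) := by
  obtain ⟨a, b, c, d, hab, hba, hcd, hdc, hbox⟩ := h
  have h0l : (0 : Fin (l + 2)) < Fin.last (l + 1) := Fin.last_pos
  obtain ⟨P, hP, hP1, hP2, hP3, hP4⟩ := hbox 0 (Fin.last (l + 1))
  obtain ⟨P', hP', hP'1, hP'2, hP'3, hP'4⟩ := hbox (Fin.last (l + 1)) 0
  obtain ⟨t, j, hx, hy⟩ := DSU_gra π hP
  obtain ⟨t', j', hx', hy'⟩ := DSU_gra π hP'
  have e1 := hba _ _ h0l
  have e2 := hdc _ _ h0l
  have ht : (t : ℕ) = (t' : ℕ) := by
    rcases lt_trichotomy (t : ℕ) (t' : ℕ) with h1 | h1 | h1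
    · exfalso
      have := DSU_lt (j' := ((π t' j' : Fin N) : ℕ)) (π t j).2 h1
      omega
    · exact h1
    · exfalso
      have := DSU_lt (j' := (j : ℕ)) j'.2 h1
      omega
  have hj := j.2
  have hj' := j'.2
  have hpj := (π t j).2
  have hpj' := (π t' j').2
  rw [← ht] at hx' hy'
  have hmid : ∀ r : Fin l, (0 : Fin (l + 2)) < r.succ.castSucc ∧
      r.succ.castSucc < Fin.last (l + 1) := fun r =>
    ⟨by rw [Fin.lt_def]; simp, Fin.castSucc_lt_last _⟩
  have hmono : ∀ r s : Fin l, r < s → (r.succ.castSucc : Fin (l + 2)) < s.succ.castSucc := by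
    intro r s hrs
    rw [Fin.lt_def] at hrs ⊢
    simpa using hrs
  refine ⟨t, fun r => a r.succ.castSucc - N * t, fun r => b r.succ.castSucc - N * t,
    fun r => c r.succ.castSucc - N * t, fun r => d r.succ.castSucc - N * t, ?_, ?_, ?_, ?_, ?_⟩
  · intro r
    have := hab r.succ.castSucc
    show a _ - _ ≤ b _ - _
    omega
  · intro r s hrs
    have h1 := hba _ _ (hmono r s hrs)
    have h2 := hba _ _ (hmid s).1
    show b _ - _ < a _ - _
    omega
  · intro r
    have := hcd r.succ.castSucc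
    show c _ - _ ≤ d _ - _
    omega
  · intro r s hrs
    have h1 := hdc _ _ (hmono r s hrs)
    have h2 := hdc _ _ (hmid s).1
    show d _ - _ < c _ - _
    omega
  · intro r s
    obtain ⟨z, hz, hz1, hz2, hz3, hz4⟩ := hbox r.succ.castSucc s.succ.castSucc
    obtain ⟨t'', j'', hx'', hy''⟩ := DSU_gra π hz
    have g1 := hba _ _ (hmid r).1
    have g2 := hba _ _ (hmid r).2
    have g3 := hdc _ _ (hmid s).1
    have g4 := hdc _ _ (hmid s).2
    have hj'' := j''.2
    have htt : (t'' : ℕ) = (t : ℕ) := by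
      rcases lt_trichotomy (t'' : ℕ) (t : ℕ) with h1 | h1 | h1
      · exfalso
        have := DSU_lt (j' := 0) hj'' h1
        omega
      · exact h1
      · exfalso
        have := DSU_lt (j' := (j'' : ℕ)) hj' h1
        omega
    have htt' : t'' = t := Fin.ext htt
    subst htt'
    refine ⟨((j'' : ℕ), (π t'' j'' : ℕ)), ⟨j'', rfl⟩, ?_, ?_, ?_, ?_⟩
    · show a _ - _ ≤ (j'' : ℕ)
      omega
    · show (j'' : ℕ) ≤ b _ - _
      omega
    · show c _ - _ ≤ (π t'' j'' : ℕ)
      omega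
    · show (π t'' j'' : ℕ) ≤ d _ - _
      omega

/-- **DSU**: direct sums. -/
theorem DSU : DSU_stmt := by
  intro N T l
  have h1 : (NM l N).card ^ T = (Fintype.piFinset fun _ : Fin T => NM l N).card := by
    rw [Fintype.card_piFinset]
    simp
  rw [h1]
  refine Finset.card_le_card_of_injOn DSU_w ?_ (DSU_inj.injOn)
  intro π hπ
  rw [Finset.mem_coe, Fintype.mem_piFinset] at hπ
  rw [Finset.mem_coe]
  unfold NM
  rw [Finset.mem_filter]
  refine ⟨Finset.mem_univ _, fun hm => ?_⟩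
  obtain ⟨t, ht⟩ := DSU_minor π hm
  have := hπ t
  unfold NM at this
  rw [Finset.mem_filter] at this
  exact this.2 ht

end Pool.Agent.DSW
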