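import Pool.Agent.helper71.DSW.SpecA

/-!
# Existence of the labels (row dsw:EXF)
-/

set_option autoImplicit false

namespace Pool.Agent.DSW

open Equiv Finset Function Pool.Agent.helper48.PP
open scoped ENNReal Classical

/-- the relation of a labeling -/
def EXF_Z {h Q : ℕ} (F : Nd h × Nd h → Fin Q) : Nd h → Nd h → Prop := fun u v => (F (u, v) : ℕ) = 0

/-- the pairs of nodes containing a cell -/
noncomputable def EXF_P (h x y : ℕ) : Finset (Nd h × Nd h) :=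
  Finset.univ.filter fun a => x / 2 ^ (a.1.1 : ℕ) = (a.1.2 : ℕ) ∧ y / 2 ^ (a.2.1 : ℕ) = (a.2.2 : ℕ)

theorem EXF_P_card (h x y : ℕ) : (EXF_P h x y).card ≤ (h + 1) ^ 2 := by
  have h1 : (Finset.univ : Finset (Fin (h + 1) × Fin (h + 1))).card = (h + 1) ^ 2 := by
    rw [Finset.card_univ, Fintype.card_prod, Fintype.card_fin, sq]
  rw [← h1]
  refine Finset.card_le_card_of_injOn (fun a => (a.1.1, a.2.1)) (fun a _ => Finset.mem_univ _) ?_
  rintro ⟨⟨i, v⟩, ⟨j, w⟩⟩ h2 ⟨⟨i', v'⟩, ⟨j', w'⟩⟩ h3 h4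
  have h2' := (Finset.mem_filter.1 (Finset.mem_coe.1 h2)).2
  have h3' := (Finset.mem_filter.1 (Finset.mem_coe.1 h3)).2
  simp only [Prod.mk.injEq] at h4
  obtain ⟨rfl, rfl⟩ := h4
  simp only at h2' h3'
  have e1 : v = v' := Fin.ext (h2'.1.symm.trans h3'.1)
  have e2 : w = w' := Fin.ext (h2'.2.symm.trans h3'.2)
  rw [e1, e2]

theorem EXF_real (hLBL : LBL_stmt) {α : Type} [Fintype α] [DecidableEq α] (Q : ℕ) (P : Finset α)
    (hQ : 1 ≤ Q) : ((Finset.univ.filter fun F : α → Fin Q => ∀ a ∈ P, ((F a : ℕ)) ≠ 0).card : ℝ) =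
      (Q : ℝ) ^ Fintype.card α * (1 - 1 / (Q : ℝ)) ^ P.card := by
  have h1 := hLBL α Q P hQ
  have h2 : (((Finset.univ.filter fun F : α → Fin Q => ∀ a ∈ P, ((F a : ℕ)) ≠ 0).card *
      Q ^ P.card : ℕ) : ℝ) = (((Q - 1) ^ P.card * Q ^ Fintype.card α : ℕ) : ℝ) := by rw [h1]
  push_cast [Nat.cast_sub hQ] at h2
  have hQ0 : (0 : ℝ) < Q := by exact_mod_cast hQ
  have h3 : (1 - 1 / (Q : ℝ)) ^ P.card = ((Q : ℝ) - 1) ^ P.card / (Q : ℝ) ^ P.card := by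
    rw [← div_pow]
    congr 1
    field_simp
  rw [h3, mul_div_assoc', eq_div_iff (pow_pos hQ0 _).ne', h2]
  ring

theorem EXF_quarter (Q : ℕ) (hQ : 2 ≤ Q) : 1 / 4 ≤ (1 - 1 / (Q : ℝ)) ^ Q := by
  have hQ0 : (2 : ℝ) ≤ Q := by exact_mod_cast hQ
  have hQ1 : (0 : ℝ) < Q := by linarith
  have h1 : 1 / (Q : ℝ) ≤ 1 / 2 := one_div_le_one_div_of_le (by norm_num) hQ0
  have h2 := one_add_mul_self_le_rpow_one_add (s := -(1 / (Q : ℝ))) (by linarith)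
    (p := (Q : ℝ) / 2) (by linarith)
  have h3 : 1 + (Q : ℝ) / 2 * -(1 / (Q : ℝ)) = 1 / 2 := by
    field_simp
    norm_num
  rw [h3] at h2
  have h4 : (1 + -(1 / (Q : ℝ))) = 1 - 1 / (Q : ℝ) := by ring
  rw [h4] at h2
  have h5 : ((1 - 1 / (Q : ℝ)) ^ ((Q : ℝ) / 2)) ^ 2 = (1 - 1 / (Q : ℝ)) ^ Q := by
    rw [← Real.rpow_natCast, ← Real.rpow_mul (by linarith)]
    have : (Q : ℝ) / 2 * ((2 : ℕ) : ℝ) = (Q : ℝ) := by push_cast; ring
    rw [this, Real.rpow_natCast]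
  rw [← h5]
  have h6 : (0 : ℝ) ≤ (1 - 1 / (Q : ℝ)) ^ ((Q : ℝ) / 2) := by linarith
  nlinarith

theorem EXF_cell (hLBL : LBL_stmt) (h : ℕ) (hh : 1 ≤ h) (x y : ℕ) (hx : x < 2 ^ h)
    (hy : y < 2 ^ h) : (((h + 1) ^ 2 : ℕ) : ℝ) ^ Fintype.card (Nd h × Nd h) / 4 ≤
      ((Finset.univ.filter fun F : Nd h × Nd h → Fin ((h + 1) ^ 2) =>
        (x, y) ∈ AF (EXF_Z F)).card : ℝ) := by
  have hQ : 2 ≤ (h + 1) ^ 2 := by nlinarith
  have e : (Finset.univ.filter fun F : Nd h × Nd h → Fin ((h + 1) ^ 2) =>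
      (x, y) ∈ AF (EXF_Z F)) = (Finset.univ.filter fun F : Nd h × Nd h → Fin ((h + 1) ^ 2) =>
        ∀ a ∈ EXF_P h x y, ((F a : ℕ)) ≠ 0) := by
    refine Finset.filter_congr fun F _ => ?_
    unfold AF EXF_Z EXF_P
    simp only [Finset.mem_filter, Finset.mem_product, Finset.mem_range, Finset.mem_univ, true_and]
    constructor
    · rintro ⟨-, h1⟩ ⟨u, v⟩ ⟨h2, h3⟩
      exact h1 u v h2 h3
    · intro h1
      exact ⟨⟨hx, hy⟩, fun u v h2 h3 => h1 (u, v) ⟨h2, h3⟩⟩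
  rw [e, EXF_real hLBL _ _ (by omega)]
  have h1 := EXF_quarter _ hQ
  have hQ0 : (2 : ℝ) ≤ (((h + 1) ^ 2 : ℕ) : ℝ) := by exact_mod_cast hQ
  have h2 : 0 ≤ 1 - 1 / (((h + 1) ^ 2 : ℕ) : ℝ) := by
    have := one_div_le_one_div_of_le (by norm_num : (0 : ℝ) < 2) hQ0
    linarith
  have h3 : 1 - 1 / (((h + 1) ^ 2 : ℕ) : ℝ) ≤ 1 := by
    have : 0 ≤ 1 / (((h + 1) ^ 2 : ℕ) : ℝ) := by positivity
    linarith
  have h4 := pow_le_pow_of_le_one h2 h3 (EXF_P_card h x y)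
  have h5 : 0 ≤ (((h + 1) ^ 2 : ℕ) : ℝ) ^ Fintype.card (Nd h × Nd h) := by positivity
  calc (((h + 1) ^ 2 : ℕ) : ℝ) ^ Fintype.card (Nd h × Nd h) / 4
      = (((h + 1) ^ 2 : ℕ) : ℝ) ^ Fintype.card (Nd h × Nd h) * (1 / 4) := by ring
    _ ≤ _ := mul_le_mul_of_nonneg_left (h1.trans h4) h5

theorem EXF_pair (hLBL : LBL_stmt) (h l : ℕ) (ρ κ : Fin l → Nd h) (hρ : Injective ρ)
    (hκ : Injective κ) : ((Finset.univ.filter fun F : Nd h × Nd h → Fin ((h + 1) ^ 2) =>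
        ∀ r s, ¬ EXF_Z F (ρ r) (κ s)).card : ℝ) ≤
      (((h + 1) ^ 2 : ℕ) : ℝ) ^ Fintype.card (Nd h × Nd h) *
        Real.exp (-(((l : ℝ) * l) / ((h : ℝ) + 1) ^ 2)) := by
  have hQ : 1 ≤ (h + 1) ^ 2 := Nat.one_le_pow _ _ (by omega)
  set P : Finset (Nd h × Nd h) := Finset.univ.image fun q : Fin l × Fin l => (ρ q.1, κ q.2) with hP
  have hPc : P.card = l * l := by
    rw [hP, Finset.card_image_of_injective, Finset.card_univ, Fintype.card_prod, Fintype.card_fin]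
    intro q q' hq
    simp only [Prod.mk.injEq] at hq
    exact Prod.ext (hρ hq.1) (hκ hq.2)
  have e : (Finset.univ.filter fun F : Nd h × Nd h → Fin ((h + 1) ^ 2) =>
      ∀ r s, ¬ EXF_Z F (ρ r) (κ s)) = (Finset.univ.filter fun F : Nd h × Nd h → Fin ((h + 1) ^ 2) =>
        ∀ a ∈ P, ((F a : ℕ)) ≠ 0) := by
    refine Finset.filter_congr fun F _ => ?_
    unfold EXF_Z
    constructor
    · intro h1 a ha
      rw [hP, Finset.mem_image] at ha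
      obtain ⟨q, -, rfl⟩ := ha
      exact h1 q.1 q.2
    · intro h1 r s
      refine h1 (ρ r, κ s) ?_
      rw [hP, Finset.mem_image]
      exact ⟨(r, s), Finset.mem_univ _, rfl⟩
  rw [e, EXF_real hLBL _ _ hQ, hPc]
  refine mul_le_mul_of_nonneg_left ?_ (by positivity)
  have hQ0 : (1 : ℝ) ≤ (((h + 1) ^ 2 : ℕ) : ℝ) := by exact_mod_cast hQ
  have h2 : 0 ≤ 1 - 1 / (((h + 1) ^ 2 : ℕ) : ℝ) := by
    have := one_div_le_one_div_of_le (by norm_num : (0 : ℝ) < 1) hQ0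
    linarith
  have h3 : 1 - 1 / (((h + 1) ^ 2 : ℕ) : ℝ) ≤ Real.exp (-(1 / (((h + 1) ^ 2 : ℕ) : ℝ))) :=
    Real.one_sub_le_exp_neg _
  refine (pow_le_pow_left₀ h2 h3 _).trans (le_of_eq ?_)
  rw [← Real.exp_nat_mul]
  congr 1
  push_cast
  ring

theorem EXF_bad (hLBL : LBL_stmt) (h : ℕ) (hh : 1 ≤ h) :
    ((Finset.univ.filter fun F : Nd h × Nd h → Fin ((h + 1) ^ 2) =>
      ∃ ρ κ : Fin (3 * (h + 1) ^ 3) → Nd h, Injective ρ ∧ Injective κ ∧
        ∀ r s, ¬ EXF_Z F (ρ r) (κ s)).card : ℝ) ≤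
      (((h + 1) ^ 2 : ℕ) : ℝ) ^ Fintype.card (Nd h × Nd h) / 16 := by
  set l := 3 * (h + 1) ^ 3 with hl
  set T := (((h + 1) ^ 2 : ℕ) : ℝ) ^ Fintype.card (Nd h × Nd h) with hT
  have hT0 : 0 ≤ T := by positivity
  have hl1 : 1 ≤ l := by
    have : 1 ≤ (h + 1) ^ 3 := Nat.one_le_pow _ _ (by omega)
    omega
  let J : Finset ((Fin l → Nd h) × (Fin l → Nd h)) :=
    Finset.univ.filter fun q => Injective q.1 ∧ Injective q.2
  have h1 : (Finset.univ.filter fun F : Nd h × Nd h → Fin ((h + 1) ^ 2) =>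
      ∃ ρ κ : Fin l → Nd h, Injective ρ ∧ Injective κ ∧ ∀ r s, ¬ EXF_Z F (ρ r) (κ s)) ⊆
      J.biUnion fun q => Finset.univ.filter fun F : Nd h × Nd h → Fin ((h + 1) ^ 2) =>
        ∀ r s, ¬ EXF_Z F (q.1 r) (q.2 s) := by
    intro F hF
    obtain ⟨ρ, κ, h2, h3, h4⟩ := (Finset.mem_filter.1 hF).2
    rw [Finset.mem_biUnion]
    exact ⟨(ρ, κ), Finset.mem_filter.2 ⟨Finset.mem_univ _, h2, h3⟩,
      Finset.mem_filter.2 ⟨Finset.mem_univ _, h4⟩⟩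
  have h2 := (Finset.card_le_card h1).trans Finset.card_biUnion_le
  have h3 : ((Finset.univ.filter fun F : Nd h × Nd h → Fin ((h + 1) ^ 2) =>
      ∃ ρ κ : Fin l → Nd h, Injective ρ ∧ Injective κ ∧
        ∀ r s, ¬ EXF_Z F (ρ r) (κ s)).card : ℝ) ≤
      ∑ q ∈ J, ((Finset.univ.filter fun F : Nd h × Nd h → Fin ((h + 1) ^ 2) =>
        ∀ r s, ¬ EXF_Z F (q.1 r) (q.2 s)).card : ℝ) := by
    exact_mod_cast h2
  refine h3.trans ?_
  have h4 : ∀ q ∈ J, ((Finset.univ.filter fun F : Nd h × Nd h → Fin ((h + 1) ^ 2) =>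
        ∀ r s, ¬ EXF_Z F (q.1 r) (q.2 s)).card : ℝ) ≤
        T * Real.exp (-(((l : ℝ) * l) / ((h : ℝ) + 1) ^ 2)) := by
    intro q hq
    have hq' := (Finset.mem_filter.1 hq).2
    exact EXF_pair hLBL h l q.1 q.2 hq'.1 hq'.2
  refine (Finset.sum_le_card_nsmul _ _ _ h4).trans ?_
  rw [nsmul_eq_mul]
  have h5 : J.card ≤ (16 ^ h) ^ l := by
    refine (Finset.card_le_univ _).trans ?_
    rw [Fintype.card_prod, Fintype.card_fun, Fintype.card_prod, Fintype.card_fin, Fintype.card_fin,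
      Fintype.card_fin, ← mul_pow]
    refine Nat.pow_le_pow_left ?_ _
    have h6 : h + 1 ≤ 2 ^ h := Nat.lt_two_pow_self
    calc (h + 1) * 2 ^ h * ((h + 1) * 2 ^ h) ≤ 2 ^ h * 2 ^ h * (2 ^ h * 2 ^ h) :=
          Nat.mul_le_mul (Nat.mul_le_mul_right _ h6) (Nat.mul_le_mul_right _ h6)
      _ = 16 ^ h := by
        rw [← mul_pow, ← mul_pow]
        norm_num
  have h5' : (J.card : ℝ) ≤ (16 ^ h) ^ l := by exact_mod_cast h5
  have h6 : (l : ℝ) * l / ((h : ℝ) + 1) ^ 2 = 3 * (((h + 1) * l : ℕ) : ℝ) := by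
    have : (0 : ℝ) < (h : ℝ) + 1 := by positivity
    rw [hl]
    push_cast
    field_simp
  have h7 : Real.exp (-(((l : ℝ) * l) / ((h : ℝ) + 1) ^ 2)) = (Real.exp (-3)) ^ ((h + 1) * l) := by
    rw [h6, ← Real.exp_nat_mul]
    congr 1
    ring
  have h8 : Real.exp (-3) ≤ 1 / 16 := by
    rw [Real.exp_neg, ← one_div]
    refine one_div_le_one_div_of_le (by norm_num) ?_
    have e1 : Real.exp 3 = Real.exp 1 ^ 3 := by
      rw [← Real.exp_nat_mul]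
      norm_num
    rw [e1]
    have e2 := Real.exp_one_gt_d9
    have e3 : (2.7 : ℝ) ≤ Real.exp 1 := by linarith
    calc (16 : ℝ) ≤ 2.7 ^ 3 := by norm_num
      _ ≤ Real.exp 1 ^ 3 := pow_le_pow_left₀ (by norm_num) e3 3
  have h9 : Real.exp (-(((l : ℝ) * l) / ((h : ℝ) + 1) ^ 2)) ≤ (1 / 16) ^ ((h + 1) * l) := by
    rw [h7]
    exact pow_le_pow_left₀ (Real.exp_pos _).le h8 _
  calc (J.card : ℝ) * (T * Real.exp (-(((l : ℝ) * l) / ((h : ℝ) + 1) ^ 2)))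
      ≤ (16 ^ h) ^ l * (T * (1 / 16) ^ ((h + 1) * l)) :=
        mul_le_mul h5' (mul_le_mul_of_nonneg_left h9 hT0)
          (mul_nonneg hT0 (Real.exp_pos _).le) (by positivity)
    _ = T * (1 / 16) ^ l := by
        rw [← pow_mul, add_mul, one_mul, pow_add, one_div, inv_pow, inv_pow]
        field_simp
    _ ≤ T * (1 / 16) ^ 1 :=
        mul_le_mul_of_nonneg_left (pow_le_pow_of_le_one (by norm_num) (by norm_num) hl1) hT0
    _ = T / 16 := by ring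

/-- **EXF**: existence of the labels. -/
theorem EXF (hLBL : LBL_stmt) : EXF_stmt := by
  intro h hh
  by_contra hcon
  push Not at hcon
  set T := (((h + 1) ^ 2 : ℕ) : ℝ) ^ Fintype.card (Nd h × Nd h) with hT
  have hT0 : 0 < T := by positivity
  let R : Finset (ℕ × ℕ) := Finset.range (2 ^ h) ×ˢ Finset.range (2 ^ h)
  have hRc : R.card = 2 ^ h * 2 ^ h := by
    rw [Finset.card_product, Finset.card_range]
  let Bd : Finset (Nd h × Nd h → Fin ((h + 1) ^ 2)) := Finset.univ.filter fun F =>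
      ∃ ρ κ : Fin (3 * (h + 1) ^ 3) → Nd h, Injective ρ ∧ Injective κ ∧
        ∀ r s, ¬ EXF_Z F (ρ r) (κ s)
  have hBd : (Bd.card : ℝ) ≤ T / 16 := EXF_bad hLBL h hh
  have hcardT : ((Finset.univ : Finset (Nd h × Nd h → Fin ((h + 1) ^ 2))).card : ℝ) = T := by
    rw [Finset.card_univ, Fintype.card_fun, Fintype.card_fin, hT]
    push_cast
    rfl
  have hAFR : ∀ F : Nd h × Nd h → Fin ((h + 1) ^ 2), AF (EXF_Z F) = R.filter fun z =>
      z ∈ AF (EXF_Z F) := by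
    intro F
    ext z
    rw [Finset.mem_filter]
    exact ⟨fun h1 => ⟨(Finset.mem_filter.1 h1).1, h1⟩, fun h1 => h1.2⟩
  -- the sum over all labelings
  have hsum : ∑ F : Nd h × Nd h → Fin ((h + 1) ^ 2), ((AF (EXF_Z F)).card : ℝ) =
      ∑ z ∈ R, ((Finset.univ.filter fun F : Nd h × Nd h → Fin ((h + 1) ^ 2) =>
        z ∈ AF (EXF_Z F)).card : ℝ) := by
    have e1 : ∀ F : Nd h × Nd h → Fin ((h + 1) ^ 2), ((AF (EXF_Z F)).card : ℝ) =
        ∑ z ∈ R, if z ∈ AF (EXF_Z F) then (1 : ℝ) else 0 := by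
      intro F
      rw [Finset.sum_boole, ← hAFR F]
    rw [Finset.sum_congr rfl fun F _ => e1 F, Finset.sum_comm]
    exact Finset.sum_congr rfl fun z _ => by rw [Finset.sum_boole]
  have hlow : (2 ^ h * 2 ^ h : ℝ) * (T / 4) ≤
      ∑ F : Nd h × Nd h → Fin ((h + 1) ^ 2), ((AF (EXF_Z F)).card : ℝ) := by
    rw [hsum]
    have e2 : ∀ z ∈ R, T / 4 ≤ ((Finset.univ.filter fun F : Nd h × Nd h → Fin ((h + 1) ^ 2) =>
        z ∈ AF (EXF_Z F)).card : ℝ) := by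
      rintro ⟨x, y⟩ hz
      rw [Finset.mem_product, Finset.mem_range, Finset.mem_range] at hz
      exact EXF_cell hLBL h hh x y hz.1 hz.2
    have e3 := Finset.card_nsmul_le_sum R _ _ e2
    rw [nsmul_eq_mul, hRc] at e3
    push_cast at e3
    exact e3
  have hup : ∑ F : Nd h × Nd h → Fin ((h + 1) ^ 2), ((AF (EXF_Z F)).card : ℝ) ≤
      (2 ^ h * 2 ^ h : ℝ) * (T / 16) + (2 ^ h * 2 ^ h : ℝ) * (T / 8) := by
    have e4 : ∀ F : Nd h × Nd h → Fin ((h + 1) ^ 2), ((AF (EXF_Z F)).card : ℝ) ≤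
        (if F ∈ Bd then (2 ^ h * 2 ^ h : ℝ) else 0) + (2 ^ h * 2 ^ h : ℝ) / 8 := by
      intro F
      by_cases hF : F ∈ Bd
      · rw [if_pos hF]
        have e5 : (AF (EXF_Z F)).card ≤ 2 ^ h * 2 ^ h := by
          rw [← hRc]
          exact Finset.card_le_card (Finset.filter_subset _ _)
        have e6 : ((AF (EXF_Z F)).card : ℝ) ≤ 2 ^ h * 2 ^ h := by exact_mod_cast e5
        have e7 : (0 : ℝ) ≤ (2 ^ h * 2 ^ h : ℝ) / 8 := by positivity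
        linarith
      · rw [if_neg hF]
        have e5 := hcon (EXF_Z F) (by
          intro ρ κ hρ hκ
          by_contra hno
          push Not at hno
          exact hF (Finset.mem_filter.2 ⟨Finset.mem_univ _, ρ, κ, hρ, hκ, hno⟩))
        have e6 : (8 : ℝ) * ((AF (EXF_Z F)).card : ℝ) < 2 ^ h * 2 ^ h := by exact_mod_cast e5
        linarith
    refine (Finset.sum_le_sum fun F _ => e4 F).trans ?_
    rw [Finset.sum_add_distrib, Finset.sum_ite_mem, Finset.univ_inter, Finset.sum_const,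
      Finset.sum_const, nsmul_eq_mul, nsmul_eq_mul, hcardT]
    have e8 : (0 : ℝ) ≤ (2 ^ h * 2 ^ h : ℝ) := by positivity
    nlinarith
  have hpos : (0 : ℝ) < (2 ^ h * 2 ^ h : ℝ) * T := by positivity
  nlinarith

end Pool.Agent.DSW
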