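import Pool.Agent.helper71.DSW.SpecA

/-!
# Growth comparison (row dsw:GRO)
-/

set_option autoImplicit false

namespace Pool.Agent.DSW

open Equiv Finset Function Pool.Agent.helper48.PP
open scoped ENNReal Classical

theorem GRO_bern (a m : ℕ) : a ^ m * (a + m) ≤ a * (a + 1) ^ m := by
  induction m with
  | zero => simp
  | succ m ih =>
    calc a ^ (m + 1) * (a + (m + 1)) = a ^ m * (a * (a + m + 1)) := by ring
      _ ≤ a ^ m * ((a + m) * (a + 1)) := by
        refine Nat.mul_le_mul_left _ ?_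
        nlinarith
      _ = a ^ m * (a + m) * (a + 1) := by ring
      _ ≤ a * (a + 1) ^ m * (a + 1) := Nat.mul_le_mul_right _ ih
      _ = a * (a + 1) ^ (m + 1) := by ring

theorem GRO_strict {a m B : ℕ} (ha : 0 < a) (h : a * B < a + m) : a ^ m * B < (a + 1) ^ m := by
  have h1 := GRO_bern a m
  have h2 : a ^ m * (a * B) < a ^ m * (a + m) := Nat.mul_lt_mul_of_pos_left h (Nat.pow_pos ha)
  have h3 : a * (a ^ m * B) < a * (a + 1) ^ m := by
    calc a * (a ^ m * B) = a ^ m * (a * B) := by ring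
      _ < a ^ m * (a + m) := h2
      _ ≤ a * (a + 1) ^ m := h1
  exact Nat.lt_of_mul_lt_mul_left h3

/-- **GRO**: growth comparison. -/
theorem GRO : GRO_stmt := by
  intro N A M hN hA hM
  rcases Nat.eq_zero_or_pos A with rfl | hA0
  · refine ⟨1, fun n hn => ?_⟩
    rw [zero_pow (by omega)]
    have h1 : 0 < N ^ N := Nat.pow_pos hN
    have h2 : 0 < M := by
      rcases Nat.eq_zero_or_pos M with h | h
      · rw [h, mul_zero] at hM
        omega
      · exact h
    exact Nat.pow_pos h2
  · refine ⟨N * (128 * A * A ^ N), fun n hn => ?_⟩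
    have hq : 128 * A * A ^ N ≤ n / N := (Nat.le_div_iff_mul_le hN).2 (by rw [mul_comm]; exact hn)
    set q := n / N with hqdef
    have hn1 : n ≤ N * q + N := by
      have h1 := Nat.div_add_mod n N
      have h2 := Nat.mod_lt n hN
      rw [← hqdef] at h1
      omega
    have hm : 128 * A * A ^ N < 128 * A + N * q := by
      have : q ≤ N * q := Nat.le_mul_of_pos_left _ hN
      omega
    have h1 : (128 * A) ^ (N * q) * A ^ N < (128 * A + 1) ^ (N * q) :=
      GRO_strict (by omega) hm
    have h2 : (128 * A + 1) ^ (N * q) ≤ N ^ (N * q) := Nat.pow_le_pow_left hA _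
    have h3 : N ^ (N * q) ≤ 128 ^ (N * q) * M ^ q := by
      calc N ^ (N * q) = (N ^ N) ^ q := pow_mul _ _ _
        _ ≤ (128 ^ N * M) ^ q := Nat.pow_le_pow_left hM _
        _ = 128 ^ (N * q) * M ^ q := by rw [mul_pow, pow_mul]
    have h4 : A ^ n ≤ A ^ (N * q) * A ^ N := by
      rw [← pow_add]
      exact Nat.pow_le_pow_right hA0 hn1
    have h5 : 128 ^ (N * q) * A ^ n < 128 ^ (N * q) * M ^ q := by
      calc 128 ^ (N * q) * A ^ n ≤ 128 ^ (N * q) * (A ^ (N * q) * A ^ N) :=
            Nat.mul_le_mul_left _ h4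
        _ = (128 * A) ^ (N * q) * A ^ N := by rw [mul_pow, mul_assoc]
        _ < (128 * A + 1) ^ (N * q) := h1
        _ ≤ N ^ (N * q) := h2
        _ ≤ 128 ^ (N * q) * M ^ q := h3
    exact Nat.lt_of_mul_lt_mul_left h5

end Pool.Agent.DSW
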